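import Pool.Agent.PFE.StmtsE1

/-!
# Squad PFE, row ZCS (helper81): the sum of the eigenspaces
-/

set_option autoImplicit false

open scoped BigOperators

noncomputable section

namespace Pool.Agent.PFE.H81

open Pool.Agent.PFE

section

variable {K S X : Type} [Field K] [Ring S] [Algebra K S] [Group X] [Fintype X] (G : GS K S X)

theorem cmul {x y : X} {a b : S} (ha : G.c x a = a) (hb : G.c y b = b) :
    G.c (x * y) (a * b) = a * b := by
  have h := G.cm x y a b
  rw [ha, hb] at h
  exact h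

/-- the centre of the part of degree one, as a subspace -/
def M1 : Submodule K S where
  carrier := {s | G.c 1 s = s ∧ ∀ t, G.c 1 t * s = s * G.c 1 t}
  add_mem' := by
    rintro a b ⟨ha, ha'⟩ ⟨hb, hb'⟩
    exact ⟨by rw [map_add, ha, hb], fun t => by rw [mul_add, add_mul, ha', hb']⟩
  zero_mem' := ⟨map_zero _, fun t => by rw [mul_zero, zero_mul]⟩
  smul_mem' := by
    rintro r a ⟨ha, ha'⟩
    exact ⟨by rw [map_smul, ha], fun t => by rw [mul_smul_comm, smul_mul_assoc, ha']⟩

theorem cen_mem (z : Subalgebra.center K G.S1) : (((z : G.S1) : S)) ∈ M1 G := by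
  refine ⟨z.1.2, fun t => ?_⟩
  have h := Subalgebra.mem_center_iff.1 z.2 ⟨G.c 1 t, G.ci 1 t⟩
  exact congrArg Subtype.val h

/-- the centre is `M1` -/
def eqv : Subalgebra.center K G.S1 ≃ₗ[K] M1 G where
  toFun z := ⟨((z : G.S1) : S), cen_mem G z⟩
  invFun m := ⟨⟨m.1, m.2.1⟩, Subalgebra.mem_center_iff.2 fun b => Subtype.ext (by
    show (b : S) * m.1 = m.1 * (b : S)
    have h := m.2.2 (b : S)
    rw [show G.c 1 (b : S) = b from b.2] at h
    exact h)⟩
  map_add' _ _ := rfl
  map_smul' _ _ := rfl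
  left_inv _ := rfl
  right_inv _ := rfl

/-- the inverse of a homogeneous unit is homogeneous -/
theorem inv_hom {x : X} {g g' : S} (hg : G.c x g = g) (h1 : g * g' = 1) (h2 : g' * g = 1) :
    G.c x⁻¹ g' = g' := by
  classical
  have h3 : ∀ y, G.c 1 (g * G.c y g') = if y = x⁻¹ then g * G.c x⁻¹ g' else 0 := by
    intro y
    have h4 : G.c (x * y) (g * G.c y g') = g * G.c y g' := cmul G hg (G.ci y g')
    split_ifs with h
    · subst h
      rw [mul_inv_cancel] at h4
      exact h4
    · rw [← h4]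
      apply G.co
      intro h5
      exact h (eq_inv_of_mul_eq_one_right h5.symm)
  have h5 : g * G.c x⁻¹ g' = 1 := by
    have h6 : G.c 1 (g * ∑ y, G.c y g') = 1 := by rw [G.cs, h1, G.c1]
    rw [Finset.mul_sum, map_sum, Finset.sum_congr rfl fun y _ => h3 y, Finset.sum_ite_eq'] at h6
    simpa using h6
  calc G.c x⁻¹ g' = (g' * g) * G.c x⁻¹ g' := by rw [h2, one_mul]
    _ = g' := by rw [mul_assoc, h5, mul_one]

/-- conjugation -/
def Tc (g g' : S) : S →ₗ[K] S := (LinearMap.mulLeft K g).comp (LinearMap.mulRight K g')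

theorem Tc_apply (g g' s : S) : Tc (K := K) g g' s = g * (s * g') := rfl

theorem Tc_mem {x : X} {g g' : S} (hg : G.c x g = g) (h1 : g * g' = 1) (h2 : g' * g = 1) {s : S}
    (hs : s ∈ M1 G) : Tc (K := K) g g' s ∈ M1 G := by
  have hg' := inv_hom G hg h1 h2
  obtain ⟨hs1, hs2⟩ := hs
  rw [Tc_apply]
  refine ⟨?_, fun t => ?_⟩
  · have h3 := cmul G hg (cmul G hs1 hg')
    rw [one_mul, mul_inv_cancel] at h3
    exact h3
  · have h4 : G.c 1 (g' * (G.c 1 t * g)) = g' * (G.c 1 t * g) := by
      have h3 := cmul G hg' (cmul G (G.ci 1 t) hg)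
      rw [one_mul, inv_mul_cancel] at h3
      exact h3
    have h5 := hs2 (g' * (G.c 1 t * g))
    rw [h4] at h5
    calc G.c 1 t * (g * (s * g')) = (g * g') * (G.c 1 t * (g * (s * g'))) := by rw [h1, one_mul]
      _ = g * ((g' * (G.c 1 t * g)) * s) * g' := by simp only [mul_assoc]
      _ = g * (s * (g' * (G.c 1 t * g))) * g' := by rw [h5]
      _ = g * (s * g') * G.c 1 t * (g * g') := by simp only [mul_assoc]
      _ = g * (s * g') * G.c 1 t := by rw [h1, mul_one]

theorem Tc_rule {x : X} {g g' : S} (hg : G.c x g = g) (h1 : g * g' = 1) (h2 : g' * g = 1) {s : S}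
    (hs : s ∈ M1 G) (t : S) : G.c x t * s = Tc (K := K) g g' s * G.c x t := by
  have hg' := inv_hom G hg h1 h2
  have h3 : G.c 1 (G.c x t * g') = G.c x t * g' := by
    have h4 := cmul G (G.ci x t) hg'
    rw [mul_inv_cancel] at h4
    exact h4
  have h5 := (Tc_mem G hg h1 h2 hs).2 (G.c x t * g')
  rw [h3, Tc_apply] at h5
  rw [Tc_apply]
  calc G.c x t * s = G.c x t * (g' * g) * (s * (g' * g)) := by rw [h2, mul_one, mul_one]
    _ = (G.c x t * g' * (g * (s * g'))) * g := by simp only [mul_assoc]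
    _ = (g * (s * g') * (G.c x t * g')) * g := by rw [h5]
    _ = g * (s * g') * G.c x t * (g' * g) := by simp only [mul_assoc]
    _ = g * (s * g') * G.c x t := by rw [h2, mul_one]

end

/-- row ZCS -/
theorem zcs : ZcsStmt := by
  classical
  intro K S X _ _ _ _ _ _ _ G l χ hl hχl hχu hg Z hZ
  choose g g' hg1 hg2 hg3 using hg
  have hχ1 : ∀ x, x ≠ 1 → χ x ≠ 1 := by
    intro x hx h
    have h1 := hχu x hx
    rw [h, sub_self] at h1
    exact not_isUnit_zero h1
  have hinj : Function.Injective χ := by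
    rw [injective_iff_map_eq_one]
    intro x hx
    by_contra h
    exact hχ1 x h hx
  have hχ0 : ∀ x, χ x ≠ 0 := by
    intro x h
    have h1 := hχl x
    rw [h, zero_pow (by omega)] at h1
    exact zero_ne_one h1
  have hdvd : Fintype.card X ∣ l - 1 := by
    have : IsCyclic X := isCyclic_of_injective_ringHom χ hinj
    obtain ⟨x, hx⟩ := IsCyclic.exists_generator (α := X)
    have h1 : orderOf x = Fintype.card X := by
      rw [orderOf_eq_card_of_forall_mem_zpowers hx, Nat.card_eq_fintype_card]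
    rw [← h1]
    apply orderOf_dvd_of_pow_eq_one
    apply hinj
    rw [map_pow, hχl, map_one]
  have hn : (Fintype.card X : K) ≠ 0 := Nat.cast_ne_zero.2 Fintype.card_ne_zero
  -- the action
  let T : X → (M1 G →ₗ[K] M1 G) := fun x =>
    (Tc (K := K) (g x) (g' x)).restrict fun s hs => Tc_mem G (hg1 x) (hg2 x) (hg3 x) hs
  have hTv : ∀ x (s : M1 G), ((T x s : M1 G) : S) = Tc (K := K) (g x) (g' x) s := fun _ _ => rfl
  have hrule : ∀ x (s : M1 G) t, G.c x t * (s : S) = (T x s : M1 G) * G.c x t := fun x s t =>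
    Tc_rule G (hg1 x) (hg2 x) (hg3 x) s.2 t
  have hcan : ∀ x (a b : S), a * g x = b * g x → a = b := by
    intro x a b h
    have h1 := congrArg (fun c => c * g' x) h
    simpa [mul_assoc, hg2] using h1
  have hTg : ∀ x (s : M1 G), g x * (s : S) = (T x s : M1 G) * g x := by
    intro x s
    have h := hrule x s (g x)
    rw [hg1] at h
    exact h
  have hTm : ∀ x y s, T (x * y) s = T x (T y s) := by
    intro x y s
    apply Subtype.ext
    apply hcan y
    have hh : G.c (x * y) (g x * g y) = g x * g y := cmul G (hg1 x) (hg1 y)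
    have h1 := hrule (x * y) s (g x * g y)
    rw [hh] at h1
    have h2 : (T (x * y) s : M1 G) * (g x * g y) = (T x (T y s) : M1 G) * (g x * g y) := by
      rw [← h1, mul_assoc, hTg y s, ← mul_assoc, hTg x (T y s), mul_assoc]
    have h3 := congrArg (fun c => c * (g' y * g' x)) h2
    have h4 : g x * g y * (g' y * g' x) = 1 := by
      rw [mul_assoc, ← mul_assoc (g y), hg2, one_mul, hg2]
    simp only [mul_assoc] at h3
    rw [show g x * (g y * (g' y * g' x)) = 1 from by rw [← mul_assoc, h4], mul_one, mul_one] at h3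
    rw [h3]
  have hT1 : ∀ s, T 1 s = s := by
    intro s
    apply Subtype.ext
    have h1 := hrule 1 s 1
    rw [G.c1, one_mul, mul_one] at h1
    exact h1.symm
  -- the eigenspaces
  have hZT : ∀ k (s : M1 G), (s : S) ∈ Z k ↔ ∀ x, T x s = χ x ^ k • s := by
    intro k s
    rw [hZ]
    constructor
    · rintro ⟨-, h⟩ x
      apply Subtype.ext
      apply hcan x
      have h1 := h x (g x)
      rw [hg1] at h1
      rw [← hTg, h1]
      exact (smul_mul_assoc _ _ _).symm
    · intro h
      refine ⟨s.2.1, fun x t => ?_⟩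
      rw [hrule, h]
      exact smul_mul_assoc _ _ _
  have hZM : ∀ k, Z k ≤ M1 G := by
    intro k s hs
    obtain ⟨h1, h2⟩ := (hZ k s).1 hs
    refine ⟨h1, fun t => ?_⟩
    rw [h2, map_one, one_pow, one_smul]
  let P : ℕ → (M1 G →ₗ[K] M1 G) := fun k =>
    ((Fintype.card X : K)⁻¹) • ∑ x, ((χ x)⁻¹ ^ k) • T x
  have hP : ∀ k s, P k s = ((Fintype.card X : K)⁻¹) • ∑ x, ((χ x)⁻¹ ^ k) • T x s := by
    intro k s
    show (((Fintype.card X : K)⁻¹) • ∑ x, ((χ x)⁻¹ ^ k) • T x) s = _
    rw [LinearMap.smul_apply, LinearMap.sum_apply]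
    rfl
  let Z' : ℕ → Submodule K (M1 G) := fun k => (Z k).comap (M1 G).subtype
  have hproj : ∀ k, LinearMap.IsProj (Z' k) (P k) := by
    intro k
    constructor
    · intro s
      show ((P k s : M1 G) : S) ∈ Z k
      rw [hZT]
      intro x
      rw [hP, map_smul, smul_comm, map_sum, Finset.smul_sum (r := χ x ^ k)]
      congr 1
      rw [← Equiv.sum_comp (Equiv.mulLeft x)
        (fun z => χ x ^ k • ((χ z)⁻¹ ^ k) • T z s)]
      refine Finset.sum_congr rfl fun y _ => ?_
      rw [map_smul, ← hTm, Equiv.coe_mulLeft, smul_smul]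
      congr 1
      rw [map_mul, mul_inv, mul_pow, ← mul_assoc, ← mul_pow, mul_inv_cancel₀ (hχ0 x), one_pow,
        one_mul]
    · intro s hs
      have h1 := (hZT k s).1 hs
      rw [hP]
      have h2 : ∀ x, ((χ x)⁻¹ ^ k) • T x s = s := by
        intro x
        rw [h1, smul_smul, ← mul_pow, inv_mul_cancel₀ (hχ0 x), one_pow, one_smul]
      rw [Finset.sum_congr rfl fun x _ => h2 x, Finset.sum_const, Finset.card_univ,
        ← Nat.cast_smul_eq_nsmul K, smul_smul, inv_mul_cancel₀ hn, one_smul]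
  have hdim : ∀ k, (Module.finrank K (Z k) : K) =
      ((Fintype.card X : K)⁻¹) * ∑ x, ((χ x)⁻¹ ^ k) * LinearMap.trace K (M1 G) (T x) := by
    intro k
    have h1 : Module.finrank K (Z' k) = Module.finrank K (Z k) :=
      LinearEquiv.finrank_eq (Submodule.comapSubtypeEquivOfLe (hZM k))
    have f0 : Module.Finite K (M1 G) := inferInstance
    have f1 : Module.Free K (Z' k) := Module.Free.of_divisionRing K (Z' k)
    have f2 : Module.Free K (LinearMap.ker (P k)) :=
      Module.Free.of_divisionRing K (LinearMap.ker (P k))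
    have h2 := LinearMap.IsProj.trace (hproj k)
    rw [← h1, ← h2]
    show LinearMap.trace K (M1 G) (((Fintype.card X : K)⁻¹) • ∑ x, ((χ x)⁻¹ ^ k) • T x) = _
    rw [map_smul, map_sum, smul_eq_mul]
    congr 1
    refine Finset.sum_congr rfl fun x _ => ?_
    rw [map_smul, smul_eq_mul]
  have hgeo : ∀ x, ∑ k ∈ Finset.range (l - 1), ((χ x)⁻¹ ^ k) =
      if x = 1 then ((l - 1 : ℕ) : K) else 0 := by
    intro x
    split_ifs with h
    · subst h
      simp
    · have h1 : (χ x)⁻¹ ≠ 1 := by
        intro h2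
        exact hχ1 x h (inv_eq_one.1 h2)
      rw [geom_sum_eq h1, inv_pow, hχl, inv_one, sub_self, zero_div]
  have htr1 : LinearMap.trace K (M1 G) (T 1) = (Module.finrank K (M1 G) : K) := by
    have h1 : T 1 = LinearMap.id := LinearMap.ext hT1
    rw [h1, LinearMap.trace_id]
  have hfin : Module.finrank K (Subalgebra.center K G.S1) = Module.finrank K (M1 G) :=
    LinearEquiv.finrank_eq (eqv G)
  have hsum : ((∑ k ∈ Finset.range (l - 1), Module.finrank K (Z k) : ℕ) : K) =
      ((Fintype.card X : K)⁻¹) * (((l - 1 : ℕ) : K) * (Module.finrank K (M1 G) : K)) := by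
    rw [Nat.cast_sum, Finset.sum_congr rfl fun k _ => hdim k, ← Finset.mul_sum, Finset.sum_comm]
    congr 1
    have h1 : ∀ x, ∑ k ∈ Finset.range (l - 1), ((χ x)⁻¹ ^ k) * LinearMap.trace K (M1 G) (T x) =
        if x = 1 then ((l - 1 : ℕ) : K) * LinearMap.trace K (M1 G) (T x) else 0 := by
      intro x
      rw [← Finset.sum_mul, hgeo, ite_mul, zero_mul]
    rw [Finset.sum_congr rfl fun x _ => h1 x, Finset.sum_ite_eq']
    simp only [Finset.mem_univ, if_true]
    rw [htr1]
  rw [hfin]
  obtain ⟨m, hm⟩ := hdvd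
  have hc : 0 < Fintype.card X := Fintype.card_pos
  rw [hm, Nat.mul_div_cancel_left _ hc]
  rw [hm] at hsum
  have h9 : ((∑ k ∈ Finset.range (Fintype.card X * m), Module.finrank K (Z k) : ℕ) : K) =
      ((m * Module.finrank K (M1 G) : ℕ) : K) := by
    rw [hsum]
    push_cast
    field_simp
  exact Nat.cast_injective h9

end Pool.Agent.PFE.H81
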